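import Pool.Agent.Q91.PT.Stm4
import Pool.Agent.H976R2.KDouble

/-!
# Project PT (helper91), job SQ2: two insertions act like a product
-/

set_option autoImplicit false

namespace Pool.Agent.Q176.PT.SQ2

open Finset Pool.Agent.H976R2 Pool.Agent.H976R2.Lip Pool.Agent.H739K Pool.Agent.H924P Pool.Agent.Q91.PT
open scoped Classical

theorem bn_nonneg (K : ℕ) (j : ℤ) : 0 ≤ bn K j := by
  unfold bn
  split_ifs
  · positivity
  · exact le_rfl

theorem ph_nonneg (a : ℤ) (w : List Dir) : 0 ≤ ph a w := bn_nonneg _ _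

theorem ins_length {w : List Dir} {i : ℕ} (e : Dir) (hi : i < w.length) : (ins w i e).length = w.length + 2 := by
  unfold ins
  simp only [List.length_append, List.length_take, List.length_cons, List.length_drop]
  omega

/-- the real inequality -/
theorem core {ι : Type} (S : Finset ι) (l : ι → ℝ) (x E φ C0 c n t1 t2 : ℝ) (hl : ∀ p ∈ S, |l p| ≤ 30)
    (hx : |x| ≤ 1 / 8) (hE0 : 0 ≤ E) (hE2 : E ≤ 2) (hxE : x ^ 2 ≤ E) (hφ : 0 ≤ φ) (hC0 : 0 ≤ C0) (hc : 0 ≤ c)
    (hn : 0 < n) (hA : (S.card : ℝ) ≤ 2 * n) (ht1 : 0 ≤ t1) (h1 : t1 ≤ ∑ p ∈ S, φ * (1 - l p * x + C0 * E))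
    (h2 : ∑ p ∈ S, (∑ q ∈ S, φ * (1 - (l p + l q) * x - C0 * E) - c * (φ * (17 / 2))) ≤ t2) :
    t1 ^ 2 ≤ φ * t2 + (3600 + 42 * C0 + 8 * C0 ^ 2 + 17 * c) * n ^ 2 * φ ^ 2 * (E + 1 / n) := by
  set A : ℝ := (S.card : ℝ) with hAdef
  set L : ℝ := ∑ p ∈ S, l p with hL
  have hA0 : 0 ≤ A := Nat.cast_nonneg _
  have hLA : |L| ≤ 30 * A := by
    calc |L| ≤ ∑ p ∈ S, |l p| := Finset.abs_sum_le_sum_abs _ _
      _ ≤ ∑ p ∈ S, (30 : ℝ) := Finset.sum_le_sum hl
      _ = 30 * A := by rw [Finset.sum_const, nsmul_eq_mul, mul_comm]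
  have e1 : ∑ p ∈ S, φ * (1 - l p * x + C0 * E) = φ * (A - L * x + C0 * E * A) := by
    rw [← Finset.mul_sum, Finset.sum_add_distrib, Finset.sum_sub_distrib, Finset.sum_const, Finset.sum_const,
      ← Finset.sum_mul, nsmul_eq_mul, nsmul_eq_mul]
    ring
  have e2 : ∑ p ∈ S, (∑ q ∈ S, φ * (1 - (l p + l q) * x - C0 * E) - c * (φ * (17 / 2))) =
      φ * (A ^ 2 - 2 * A * L * x - C0 * E * A ^ 2) - c * φ * (17 / 2) * A := by
    have h3 : ∀ p ∈ S, (∑ q ∈ S, φ * (1 - (l p + l q) * x - C0 * E) - c * (φ * (17 / 2))) =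
        φ * (A - L * x - C0 * E * A) - c * (φ * (17 / 2)) - φ * A * x * l p := by
      intro p _
      have h4 : ∀ q ∈ S, φ * (1 - (l p + l q) * x - C0 * E) =
          φ * (1 - l p * x - C0 * E) - φ * x * l q := fun q _ => by ring
      rw [Finset.sum_congr rfl h4, Finset.sum_sub_distrib, Finset.sum_const, nsmul_eq_mul, ← Finset.mul_sum]
      ring
    rw [Finset.sum_congr rfl h3, Finset.sum_sub_distrib, Finset.sum_const, nsmul_eq_mul, ← Finset.mul_sum]
    ring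
  rw [e1] at h1
  rw [e2] at h2
  have hLx : |L * x| ≤ 15 / 4 * A := by
    rw [abs_mul]
    calc |L| * |x| ≤ (30 * A) * (1 / 8) := mul_le_mul hLA hx (abs_nonneg _) (by positivity)
      _ = 15 / 4 * A := by ring
  obtain ⟨hLx1, hLx2⟩ := abs_le.1 hLx
  have hLx3 : (L * x) ^ 2 ≤ 900 * A ^ 2 * E := by
    rw [mul_pow]
    have h3 : L ^ 2 ≤ (30 * A) ^ 2 := by
      rw [← sq_abs L]
      exact pow_le_pow_left₀ (abs_nonneg _) hLA 2
    calc L ^ 2 * x ^ 2 ≤ (30 * A) ^ 2 * E := mul_le_mul h3 hxE (sq_nonneg _) (by positivity)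
      _ = _ := by ring
  have h3 : t1 ^ 2 ≤ (φ * (A - L * x + C0 * E * A)) ^ 2 := pow_le_pow_left₀ ht1 h1 2
  have h4 : φ * (φ * (A ^ 2 - 2 * A * L * x - C0 * E * A ^ 2) - c * φ * (17 / 2) * A) ≤ φ * t2 :=
    mul_le_mul_of_nonneg_left h2 hφ
  have h5 : (A - L * x + C0 * E * A) ^ 2 ≤ (A ^ 2 - 2 * A * L * x - C0 * E * A ^ 2) +
      (900 + 21 / 2 * C0 + 2 * C0 ^ 2) * (A ^ 2 * E) := by
    have h6 : 2 * (A - L * x) * (C0 * E * A) ≤ 19 / 2 * C0 * (A ^ 2 * E) := by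
      have h7 : 2 * (A - L * x) ≤ 19 / 2 * A := by linarith
      have h8 : 0 ≤ C0 * E * A := by positivity
      calc 2 * (A - L * x) * (C0 * E * A) ≤ 19 / 2 * A * (C0 * E * A) := mul_le_mul_of_nonneg_right h7 h8
        _ = _ := by ring
    have h7 : (C0 * E * A) ^ 2 ≤ 2 * C0 ^ 2 * (A ^ 2 * E) := by
      have h8 : E * E ≤ 2 * E := mul_le_mul_of_nonneg_right hE2 hE0
      calc (C0 * E * A) ^ 2 = C0 ^ 2 * A ^ 2 * (E * E) := by ring
        _ ≤ C0 ^ 2 * A ^ 2 * (2 * E) := mul_le_mul_of_nonneg_left h8 (by positivity)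
        _ = _ := by ring
    nlinarith
  have h6 : (φ * (A - L * x + C0 * E * A)) ^ 2 ≤ φ ^ 2 * ((A ^ 2 - 2 * A * L * x - C0 * E * A ^ 2) +
      (900 + 21 / 2 * C0 + 2 * C0 ^ 2) * (A ^ 2 * E)) := by
    rw [mul_pow]
    exact mul_le_mul_of_nonneg_left h5 (sq_nonneg _)
  have hA2 : A ^ 2 ≤ 4 * n ^ 2 := by nlinarith
  have h7 : (900 + 21 / 2 * C0 + 2 * C0 ^ 2) * (A ^ 2 * E) ≤ (900 + 21 / 2 * C0 + 2 * C0 ^ 2) * (4 * n ^ 2 * E) := by
    gcongr
  have h8 : c * (17 / 2) * A ≤ 17 * c * n ^ 2 * (1 / n) := by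
    have h9 : 17 * c * n ^ 2 * (1 / n) = c * (17 / 2) * (2 * n) := by
      field_simp
    rw [h9]
    exact mul_le_mul_of_nonneg_left hA (by positivity)
  have h9 : 0 ≤ (3600 + 42 * C0 + 8 * C0 ^ 2) * n ^ 2 * (1 / n) := by positivity
  have h10 : 0 ≤ 17 * c * n ^ 2 * E := by positivity
  have h11 : (900 + 21 / 2 * C0 + 2 * C0 ^ 2) * (A ^ 2 * E) + c * (17 / 2) * A ≤
      (3600 + 42 * C0 + 8 * C0 ^ 2 + 17 * c) * n ^ 2 * (E + 1 / n) := by
    have h12 : (3600 + 42 * C0 + 8 * C0 ^ 2 + 17 * c) * n ^ 2 * (E + 1 / n) =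
        (900 + 21 / 2 * C0 + 2 * C0 ^ 2) * (4 * n ^ 2 * E) + 17 * c * n ^ 2 * E +
          (3600 + 42 * C0 + 8 * C0 ^ 2) * n ^ 2 * (1 / n) + 17 * c * n ^ 2 * (1 / n) := by ring
    rw [h12]
    linarith
  have h12 := mul_le_mul_of_nonneg_left h11 (sq_nonneg φ)
  nlinarith

theorem t (hins : S_ins) (hmat : S_mat) (hbc : S_bc2) : S_sq2 := by
  obtain ⟨c, hmat⟩ := hmat
  obtain ⟨C0, hC0, hbc⟩ := hbc
  set C1 : ℝ := 17 / 2 + 2 * C0 with hC1
  have hC1p : 0 < C1 := by positivity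
  refine ⟨(3600 + 42 * C0 + 8 * C0 ^ 2 + 17 * c) + 8 * C1, by positivity, ?_⟩
  intro w a hw3 hsaw hsq hK1 hj
  set K := (Fl w).card with hK
  set j : ℤ := a - base w with hjdef
  have hKr : (1 : ℝ) ≤ K := by exact_mod_cast hK1
  have hK0 : (0 : ℝ) < K := by linarith
  set x : ℝ := ((K : ℝ) - 2 * j) / K with hx
  set φ := ph a w with hφ
  have hφ0 : 0 ≤ φ := ph_nonneg a w
  have hφbn : φ = bn K j := rfl
  have hx8 : |x| ≤ 1 / 8 := by
    rw [hx, abs_div, abs_of_pos hK0, div_le_iff₀ hK0]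
    have : |(K : ℝ) - 2 * (j : ℝ)| = |2 * (j : ℝ) - K| := abs_sub_comm _ _
    rw [this]
    linarith
  set E : ℝ := x ^ 2 + 1 / K with hE
  have hxE : x ^ 2 ≤ E := by
    have : 0 ≤ 1 / (K : ℝ) := by positivity
    linarith
  have hE0 : 0 ≤ E := (sq_nonneg x).trans hxE
  have hE2 : E ≤ 2 := by
    have h1 : x ^ 2 ≤ 1 := by
      rw [← sq_abs]
      exact pow_le_one₀ (abs_nonneg _) (by linarith)
    have h2 : 1 / (K : ℝ) ≤ 1 := (div_le_one hK0).2 hKr
    linarith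
  have hn0 : (0 : ℝ) < w.length := by
    have : 0 < w.length := by omega
    exact_mod_cast this
  -- the basic comparison
  have key : ∀ (v : List Dir) (κ β : ℤ), ((Fl v).card : ℤ) = K + κ → base v = base w + β → |κ| ≤ 20 → |β| ≤ 20 →
      |ph a v - φ * (1 - (κ + 2 * β) * x)| ≤ C0 * φ * E := by
    intro v κ β h1 h2 h3 h4
    have h5 := hbc K j κ β hK1 h3 h4 hj
    have h6 : ph a v = bn (K + κ).toNat (j - β) := by
      unfold ph
      rw [← h1, Int.toNat_natCast, h2]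
      congr 1
      rw [hjdef]
      ring
    rw [h6, hφbn]
    exact h5
  have key2 : ∀ (v : List Dir) (κ β : ℤ), ((Fl v).card : ℤ) = K + κ → base v = base w + β → |κ| ≤ 20 → |β| ≤ 20 →
      ph a v ≤ C1 * φ := by
    intro v κ β h1 h2 h3 h4
    have h5 := (abs_le.1 (key v κ β h1 h2 h3 h4)).2
    have h6 : |((κ : ℝ) + 2 * β)| ≤ 60 := by
      have h7 : |κ + 2 * β| ≤ 60 := by
        rw [abs_le] at *
        constructor <;> omega
      exact_mod_cast h7
    have h7 : |((κ : ℝ) + 2 * β) * x| ≤ 15 / 2 := by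
      rw [abs_mul]
      calc |(κ : ℝ) + 2 * β| * |x| ≤ 60 * (1 / 8) := mul_le_mul h6 hx8 (abs_nonneg _) (by norm_num)
        _ = 15 / 2 := by norm_num
    have h8 := (abs_le.1 h7).1
    have h9 : φ * (1 - (κ + 2 * β) * x) ≤ φ * (17 / 2) := mul_le_mul_of_nonneg_left (by linarith) hφ0
    have h10 : C0 * φ * E ≤ C0 * φ * 2 := mul_le_mul_of_nonneg_left hE2 (by positivity)
    rw [hC1]
    nlinarith
  -- one insertion
  have hone : ∀ p ∈ adm w, |dK w p| ≤ 10 ∧ |dB w p| ≤ 10 ∧ p.1 < w.length ∧ Saw (ins w p.1 p.2) ∧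
      sq (ins w p.1 p.2) = 1 ∧ (ins w p.1 p.2).length = w.length + 2 := by
    intro p hp
    have h1 := hins w p.1 p.2 hw3 hsaw hsq (by simpa using hp)
    have h2 := hp
    unfold adm at h2
    rw [Finset.mem_filter, Finset.mem_product, Finset.mem_range] at h2
    refine ⟨h1.1, h1.2, h2.1.1, h2.2.2, ?_, ins_length _ h2.1.1⟩
    rw [sq_ins _ h2.1.1, hsq]
  have hcard1 : ∀ p : ℕ × Dir, ((Fl (ins w p.1 p.2)).card : ℤ) = K + dK w p := by
    intro p
    unfold dK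
    ring
  have hbase1 : ∀ p : ℕ × Dir, base (ins w p.1 p.2) = base w + dB w p := by
    intro p
    unfold dB
    ring
  have hcard2 : ∀ p p' : ℕ × Dir, ((Fl (ins (ins w p.1 p.2) p'.1 p'.2)).card : ℤ) =
      K + (dK w p + dK (ins w p.1 p.2) p') := by
    intro p p'
    unfold dK
    ring
  have hbase2 : ∀ p p' : ℕ × Dir, base (ins (ins w p.1 p.2) p'.1 p'.2) =
      base w + (dB w p + dB (ins w p.1 p.2) p') := by
    intro p p'
    unfold dB
    ring
  have htwo : ∀ p ∈ adm w, ∀ p' ∈ adm (ins w p.1 p.2), |dK (ins w p.1 p.2) p'| ≤ 10 ∧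
      |dB (ins w p.1 p.2) p'| ≤ 10 := by
    intro p hp p' hp'
    obtain ⟨_, _, _, h4, h5, h6⟩ := hone p hp
    exact hins (ins w p.1 p.2) p'.1 p'.2 (by omega) h4 h5 (by simpa using hp')
  have hadd : ∀ u v : ℤ, |u| ≤ 10 → |v| ≤ 10 → |u + v| ≤ 20 := by
    intro u v h1 h2
    rw [abs_le] at *
    constructor <;> omega
  have h10 : ∀ u : ℤ, |u| ≤ 10 → |u| ≤ 20 := fun u h => h.trans (by norm_num)
  have hA : ((adm w).card : ℝ) ≤ 2 * w.length := by exact_mod_cast AA_le w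
  -- the bounds
  have hT1 : 0 ≤ T1 (ph a) w := Finset.sum_nonneg fun p _ => ph_nonneg _ _
  have hT1' : ∀ v, 0 ≤ T1 (ph a) v := fun v => Finset.sum_nonneg fun p _ => ph_nonneg _ _
  have hT2 : 0 ≤ T2 (ph a) w := Finset.sum_nonneg fun p _ => hT1' _
  have hT1u : T1 (ph a) w ≤ 8 * C1 * w.length * φ := by
    unfold T1
    calc ∑ p ∈ adm w, ph a (ins w p.1 p.2) ≤ ∑ p ∈ adm w, C1 * φ := by
          refine Finset.sum_le_sum fun p hp => ?_
          obtain ⟨h1, h2, _⟩ := hone p hp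
          exact key2 _ _ _ (hcard1 p) (hbase1 p) (h10 _ h1) (h10 _ h2)
      _ = (adm w).card * (C1 * φ) := by rw [Finset.sum_const, nsmul_eq_mul]
      _ ≤ 2 * w.length * (C1 * φ) := mul_le_mul_of_nonneg_right hA (by positivity)
      _ ≤ 8 * C1 * w.length * φ := by
          have : 0 ≤ C1 * w.length * φ := by positivity
          nlinarith
  have hT1v : ∀ p ∈ adm w, T1 (ph a) (ins w p.1 p.2) ≤ 4 * w.length * (C1 * φ) := by
    intro p hp
    obtain ⟨h1, h2, _, _, _, h6⟩ := hone p hp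
    unfold T1
    calc ∑ p' ∈ adm (ins w p.1 p.2), ph a (ins (ins w p.1 p.2) p'.1 p'.2)
        ≤ ∑ p' ∈ adm (ins w p.1 p.2), C1 * φ := by
          refine Finset.sum_le_sum fun p' hp' => ?_
          obtain ⟨h3, h4⟩ := htwo p hp p' hp'
          exact key2 _ _ _ (hcard2 p p') (hbase2 p p') (hadd _ _ h1 h3) (hadd _ _ h2 h4)
      _ = (adm (ins w p.1 p.2)).card * (C1 * φ) := by rw [Finset.sum_const, nsmul_eq_mul]
      _ ≤ 4 * w.length * (C1 * φ) := by
          refine mul_le_mul_of_nonneg_right ?_ (by positivity)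
          have h7 := AA_le (ins w p.1 p.2)
          unfold AA at h7
          rw [h6] at h7
          have h8 : (adm (ins w p.1 p.2)).card ≤ 4 * w.length := by omega
          exact_mod_cast h8
  have hT2u : T2 (ph a) w ≤ 8 * C1 * w.length ^ 2 * φ := by
    unfold T2
    calc ∑ p ∈ adm w, T1 (ph a) (ins w p.1 p.2) ≤ ∑ p ∈ adm w, 4 * w.length * (C1 * φ) :=
          Finset.sum_le_sum hT1v
      _ = (adm w).card * (4 * w.length * (C1 * φ)) := by rw [Finset.sum_const, nsmul_eq_mul]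
      _ ≤ 2 * w.length * (4 * w.length * (C1 * φ)) := mul_le_mul_of_nonneg_right hA (by positivity)
      _ = _ := by ring
  have hC : 8 * C1 ≤ (3600 + 42 * C0 + 8 * C0 ^ 2 + 17 * c) + 8 * C1 := by
    have : (0 : ℝ) ≤ 3600 + 42 * C0 + 8 * C0 ^ 2 + 17 * c := by positivity
    linarith
  refine ⟨hT1, hT2, hT1u.trans ?_, hT2u.trans ?_, ?_⟩
  · gcongr
  · gcongr
  -- the main inequality
  set l : ℕ × Dir → ℝ := fun p => (dK w p : ℝ) + 2 * dB w p with hl
  have hl30 : ∀ p ∈ adm w, |l p| ≤ 30 := by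
    intro p hp
    obtain ⟨h1, h2, _⟩ := hone p hp
    have h7 : |dK w p + 2 * dB w p| ≤ 30 := by
      rw [abs_le] at *
      constructor <;> omega
    simp only [hl]
    exact_mod_cast h7
  have hT1le : T1 (ph a) w ≤ ∑ p ∈ adm w, φ * (1 - l p * x + C0 * E) := by
    unfold T1
    refine Finset.sum_le_sum fun p hp => ?_
    obtain ⟨h1, h2, _⟩ := hone p hp
    have h3 := (abs_le.1 (key _ _ _ (hcard1 p) (hbase1 p) (h10 _ h1) (h10 _ h2))).2
    simp only [hl]
    nlinarith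
  have hT2ge : ∑ p ∈ adm w, (∑ q ∈ adm w, φ * (1 - (l p + l q) * x - C0 * E) - c * (φ * (17 / 2))) ≤
      T2 (ph a) w := by
    unfold T2
    refine Finset.sum_le_sum fun p hp => ?_
    obtain ⟨h1, h2, _⟩ := hone p hp
    obtain ⟨m, X, hX, hXc, hinj, hm, _⟩ := hmat w hw3 hsaw hsq p hp
    have h3 : ∑ q ∈ adm w \ X, φ * (1 - (l p + l q) * x - C0 * E) ≤ T1 (ph a) (ins w p.1 p.2) := by
      calc ∑ q ∈ adm w \ X, φ * (1 - (l p + l q) * x - C0 * E)
          ≤ ∑ q ∈ adm w \ X, ph a (ins (ins w p.1 p.2) (m q).1 (m q).2) := by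
            refine Finset.sum_le_sum fun q hq => ?_
            obtain ⟨h4, h5, h6⟩ := hm q hq
            have hq' : q ∈ adm w := (Finset.mem_sdiff.1 hq).1
            obtain ⟨h7, h8, _⟩ := hone q hq'
            have h9 := hcard2 p (m q)
            have h11 := hbase2 p (m q)
            rw [h5] at h9
            rw [h6] at h11
            have h12 := (abs_le.1 (key _ _ _ h9 h11 (hadd _ _ h1 h7) (hadd _ _ h2 h8))).1
            have h13 : (((dK w p + dK w q : ℤ) : ℝ) + 2 * ((dB w p + dB w q : ℤ) : ℝ)) = l p + l q := by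
              simp only [hl]
              push_cast
              ring
            rw [h13] at h12
            nlinarith
        _ = ∑ p' ∈ (adm w \ X).image m, ph a (ins (ins w p.1 p.2) p'.1 p'.2) :=
            (Finset.sum_image (f := fun p' : ℕ × Dir => ph a (ins (ins w p.1 p.2) p'.1 p'.2)) hinj).symm
        _ ≤ T1 (ph a) (ins w p.1 p.2) := by
            unfold T1
            refine Finset.sum_le_sum_of_subset_of_nonneg ?_ fun _ _ _ => ph_nonneg _ _
            intro p' hp'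
            obtain ⟨q, hq, rfl⟩ := Finset.mem_image.1 hp'
            exact (hm q hq).1
    have h4 : ∑ q ∈ X, φ * (1 - (l p + l q) * x - C0 * E) ≤ c * (φ * (17 / 2)) := by
      calc ∑ q ∈ X, φ * (1 - (l p + l q) * x - C0 * E) ≤ ∑ q ∈ X, φ * (17 / 2) := by
            refine Finset.sum_le_sum fun q hq => ?_
            refine mul_le_mul_of_nonneg_left ?_ hφ0
            have h5 := hl30 p hp
            have h6 := hl30 q (hX hq)
            have h7 : |(l p + l q) * x| ≤ 15 / 2 := by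
              rw [abs_mul]
              calc |l p + l q| * |x| ≤ 60 * (1 / 8) :=
                    mul_le_mul ((abs_add_le _ _).trans (by linarith)) hx8 (abs_nonneg _) (by norm_num)
                _ = 15 / 2 := by norm_num
            have h8 := (abs_le.1 h7).1
            have h9 : 0 ≤ C0 * E := by positivity
            linarith
        _ = X.card * (φ * (17 / 2)) := by rw [Finset.sum_const, nsmul_eq_mul]
        _ ≤ c * (φ * (17 / 2)) := by
            refine mul_le_mul_of_nonneg_right ?_ (by positivity)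
            exact_mod_cast hXc
    have h5 : ∑ q ∈ adm w, φ * (1 - (l p + l q) * x - C0 * E) =
        ∑ q ∈ adm w \ X, φ * (1 - (l p + l q) * x - C0 * E) + ∑ q ∈ X, φ * (1 - (l p + l q) * x - C0 * E) :=
      (Finset.sum_sdiff hX).symm
    linarith
  have hmain := core (adm w) l x E φ C0 c w.length (T1 (ph a) w) (T2 (ph a) w) hl30 hx8 hE0 hE2 hxE hφ0 hC0.le
    (Nat.cast_nonneg c) hn0 hA hT1 hT1le hT2ge
  refine hmain.trans ?_
  have hEE : ((2 * ((j : ℤ) : ℝ) - (K : ℝ)) / K) ^ 2 + 1 / (K : ℝ) + 1 / (w.length : ℝ) = E + 1 / w.length := by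
    rw [hE, hx]
    congr 2
    rw [div_pow, div_pow]
    congr 1
    ring
  rw [hEE]
  have h1 : (0 : ℝ) ≤ E + 1 / w.length := by positivity
  have h2 : (3600 + 42 * C0 + 8 * C0 ^ 2 + 17 * c) * (w.length : ℝ) ^ 2 * φ ^ 2 * (E + 1 / w.length) ≤
      ((3600 + 42 * C0 + 8 * C0 ^ 2 + 17 * c) + 8 * C1) * (w.length : ℝ) ^ 2 * φ ^ 2 * (E + 1 / w.length) := by
    refine mul_le_mul_of_nonneg_right ?_ h1
    refine mul_le_mul_of_nonneg_right ?_ (sq_nonneg _)
    refine mul_le_mul_of_nonneg_right ?_ (sq_nonneg _)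
    linarith
  linarith

end Pool.Agent.Q176.PT.SQ2
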